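import Pool.Agent.helper5.PR.SpecY

/-!
# Project pr (MP_a2a22c_al), module Y-SINGLE: one eigenvalue
-/

set_option autoImplicit false

namespace Pool.Agent.PR

open Matrix Module
open scoped commutatorElement

/-- a nilpotent endomorphism plus a scalar: the determinant -/
theorem Y_SINGLE_det {K V : Type} [Field K] [AddCommGroup V] [Module K V] [FiniteDimensional K V]
    (f : Module.End K V) (a : K) (h : IsNilpotent (f - a • (1 : Module.End K V))) :
    LinearMap.det f = a ^ finrank K V := by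
  have h1 : IsNilpotent (-(f - a • (1 : Module.End K V))) := h.neg
  have h2 := (LinearMap.isNilpotent_iff_charpoly (-(f - a • (1 : Module.End K V)))).mp h1
  have h3 := LinearMap.eval_charpoly (-(f - a • (1 : Module.End K V))) a
  rw [h2, Polynomial.eval_pow, Polynomial.eval_X] at h3
  rw [h3]
  congr 1
  rw [Algebra.algebraMap_eq_smul_one]
  abel

theorem Y_SINGLE_nil {K V : Type} [Field K] [AddCommGroup V] [Module K V] [FiniteDimensional K V]
    (f : Module.End K V) (h : IsNilpotent f) : f ^ finrank K V = 0 := by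
  have h6 := (LinearMap.isNilpotent_iff_charpoly f).mp h
  have h7 := LinearMap.aeval_self_charpoly f
  rw [h6, map_pow, Polynomial.aeval_X] at h7
  exact h7

/-- the eigenvalue -/
theorem Y_SINGLE_eig {K V : Type} [Field K] [AddCommGroup V] [Module K V]
    (f : Module.End K V) (a c : K) (v : V) (hv : v ≠ 0) (hfv : f v = c • v)
    (h : IsNilpotent (f - a • (1 : Module.End K V))) : a = c := by
  obtain ⟨k, hk⟩ := h
  have h1 : ∀ k : ℕ, ((f - a • (1 : Module.End K V)) ^ k) v = (c - a) ^ k • v := by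
    intro k
    induction k with
    | zero => simp
    | succ k ih =>
      rw [pow_succ', Module.End.mul_apply, ih, map_smul]
      have h2 : (f - a • (1 : Module.End K V)) v = (c - a) • v := by
        simp [hfv, sub_smul]
      rw [h2, smul_smul, pow_succ]
  have h3 := h1 k
  rw [hk, LinearMap.zero_apply] at h3
  have h4 := (smul_eq_zero.1 h3.symm).resolve_right hv
  have h5 : k ≠ 0 := by
    rintro rfl
    rw [pow_zero] at h4
    exact one_ne_zero h4
  exact (sub_eq_zero.1 ((pow_eq_zero_iff h5).1 h4)).symm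

/-- a nontrivial normal subgroup of a nilpotent group contains a nontrivial central element -/
theorem Y_SINGLE_center {G : Type} [Group G] [hG : Group.IsNilpotent G] (N : Subgroup G)
    (hN : N.Normal) (g : G) (hg : g ∈ N) (hg1 : g ≠ 1) :
    ∃ t ∈ N, t ≠ 1 ∧ ∀ h : G, t * h = h * t := by
  obtain ⟨c, hc⟩ := hG
  have key : ∀ i : ℕ, (∃ x ∈ N, x ≠ 1 ∧ x ∈ Subgroup.upperCentralSeries G i) →
      ∃ t ∈ N, t ≠ 1 ∧ ∀ h : G, t * h = h * t := by
    intro i
    induction i with
    | zero =>
      rintro ⟨x, _, hx1, hx⟩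
      rw [Subgroup.upperCentralSeries_zero, Subgroup.mem_bot] at hx
      exact absurd hx hx1
    | succ i ih =>
      rintro ⟨x, hxN, hx1, hx⟩
      rw [Subgroup.mem_upperCentralSeries_succ_iff] at hx
      by_cases h : ∀ y : G, ⁅x, y⁆ = 1
      · exact ⟨x, hxN, hx1, fun y => commutatorElement_eq_one_iff_mul_comm.1 (h y)⟩
      · push Not at h
        obtain ⟨y, hy⟩ := h
        refine ih ⟨⁅x, y⁆, ?_, hy, hx y⟩
        rw [commutatorElement_def]
        have h1 : y * x⁻¹ * y⁻¹ ∈ N := hN.conj_mem _ (N.inv_mem hxN) y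
        have h2 := N.mul_mem hxN h1
        simpa [mul_assoc] using h2
  exact key c ⟨g, hg, hg1, by rw [hc]; exact Subgroup.mem_top g⟩

/-- a representation on a space of dimension `k` gives matrices -/
theorem Y_SINGLE_mat {K V Q : Type} [Field K] [AddCommGroup V] [Module K V] [FiniteDimensional K V]
    [Group Q] (σ : Q →* Module.End K V) (k : ℕ) (hk : finrank K V = k) :
    ∃ f : Q →* GL (Fin k) K, ∀ g, f g = 1 → σ g = 1 := by
  let b := Module.finBasisOfFinrankEq K V hk
  let φ : Module.End K V →* Matrix (Fin k) (Fin k) K :=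
    (LinearMap.toMatrixAlgEquiv b : Module.End K V ≃ₐ[K] Matrix (Fin k) (Fin k) K)
  have hφ : Function.Injective φ := (LinearMap.toMatrixAlgEquiv b).injective
  refine ⟨MonoidHom.toHomUnits (φ.comp σ), fun g hg => ?_⟩
  have h1 : φ (σ g) = 1 := by
    have h2 := congrArg (fun z : GL (Fin k) K => (z : Matrix (Fin k) (Fin k) K)) hg
    exact h2
  exact hφ (h1.trans (map_one φ).symm)

/-- the infinite cyclic group embeds -/
theorem Y_SINGLE_cyc {K Q : Type} [Field K] [CharZero K] [Group Q] (k : ℕ) (hk : 0 < k) (t : Q)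
    (ht : ∀ m : ℕ, 0 < m → t ^ m ≠ 1) :
    ∃ f : (zpowersHom Q t).range →* GL (Fin k) K, Function.Injective f := by
  have hinj : Function.Injective (zpowersHom Q t) := by
    rw [injective_iff_map_eq_one]
    intro m hm
    rw [zpowersHom_apply] at hm
    by_contra hne
    have h0 : Multiplicative.toAdd m ≠ 0 := fun h => hne (by
      rw [← ofAdd_toAdd m, h]; rfl)
    rcases lt_or_gt_of_ne h0 with h | h
    · obtain ⟨j, hj⟩ := Int.eq_ofNat_of_zero_le (by omega : 0 ≤ -Multiplicative.toAdd m)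
      apply ht j (by omega)
      have h3 : t ^ (-Multiplicative.toAdd m) = 1 := by rw [_root_.zpow_neg, hm, inv_one]
      rw [hj, zpow_natCast] at h3
      exact h3
    · obtain ⟨j, hj⟩ := Int.eq_ofNat_of_zero_le (by omega : 0 ≤ Multiplicative.toAdd m)
      apply ht j (by omega)
      rw [hj, zpow_natCast] at hm
      exact hm
  have h2 : ((2 : K)) ≠ 0 := two_ne_zero
  let s : Kˣ →* GL (Fin k) K := Units.map (Matrix.scalar (Fin k) : K →+* Matrix (Fin k) (Fin k) K)
  have hs : Function.Injective s := by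
    apply Units.map_injective
    intro a b hab
    have : Nonempty (Fin k) := ⟨⟨0, hk⟩⟩
    exact Matrix.scalar_inj.1 hab
  let z : Multiplicative ℤ →* GL (Fin k) K := s.comp (zpowersHom Kˣ (Units.mk0 2 h2))
  have hz : Function.Injective z := by
    rw [injective_iff_map_eq_one]
    intro m hm
    have h3 : zpowersHom Kˣ (Units.mk0 2 h2) m = 1 := hs (hm.trans (map_one s).symm)
    rw [zpowersHom_apply] at h3
    have h4 : (2 : K) ^ (Multiplicative.toAdd m) = 1 := by
      have h5 := congrArg (fun u : Kˣ => (u : K)) h3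
      simpa using h5
    have h5 : (2 : ℚ) ^ (Multiplicative.toAdd m) = 1 := by
      have h6 : ((2 : ℚ) ^ (Multiplicative.toAdd m) : ℚ) = ((1 : ℚ) : ℚ) := by
        apply (Rat.cast_injective (α := K))
        push_cast
        exact h4
      exact h6
    have h6 : Multiplicative.toAdd m = 0 := by
      have := zpow_eq_one_iff_right₀ (show (0 : ℚ) ≤ 2 by norm_num) (show (2 : ℚ) ≠ 1 by norm_num)
        (n := Multiplicative.toAdd m)
      exact this.1 h5
    rw [← ofAdd_toAdd m, h6]
    rfl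
  refine ⟨z.comp (MonoidHom.ofInjective hinj).symm.toMonoidHom, ?_⟩
  exact hz.comp (MonoidHom.ofInjective hinj).symm.injective

theorem Y_SINGLE (hEIG : Y_EIG_stmt) (hPOWF : Y_POWF_stmt) : Y_SINGLE_stmt := by
  intro K V _ _ _ _ _ Q _ hdim hNE ρ hTri hρ hdet hone
  obtain ⟨hFG, hNil, hTF, hEmb⟩ := hNE
  have hFGi : Group.FG Q := hFG
  have hNili : Group.IsNilpotent Q := hNil
  have hV : (⊤ : Submodule K V) ≠ ⊥ := by
    intro h
    have h1 : finrank K V = 0 := by
      rw [← finrank_top K V, h, finrank_bot]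
    omega
  obtain ⟨v, _, hv0, χ, hχ⟩ := hEIG K V Q ρ hTri ⊤ (fun _ _ _ => Submodule.mem_top) hV
  have hnil : ∀ g, IsNilpotent (ρ g - (χ g : K) • (1 : Module.End K V)) := by
    intro g
    obtain ⟨a, ha⟩ := hone g
    rw [← Y_SINGLE_eig (ρ g) a (χ g : K) v hv0 (hχ g) ha]
    exact ha
  have hpow : ∀ g, χ g ^ finrank K V = 1 := by
    intro g
    have h1 := Y_SINGLE_det (ρ g) _ (hnil g)
    rw [hdet] at h1
    apply Units.ext
    rw [Units.val_pow_eq_pow_val, Units.val_one]
    exact h1.symm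
  have hfi : χ.ker.FiniteIndex := by
    refine hPOWF Q hFG hNil χ.ker inferInstance fun g => ⟨finrank K V, by omega, ?_⟩
    rw [MonoidHom.mem_ker, map_pow, hpow g]
  set Q₁ : Subgroup Q := χ.ker with hQ₁
  have hχ1 : ∀ g : Q₁, χ (g : Q) = 1 := fun g => g.2
  set W : Submodule K V := Submodule.span K {v} with hW
  set ρ₁ : Q₁ →* Module.End K V := ρ.comp Q₁.subtype with hρ₁
  have hInv : InvS ρ₁ W := by
    intro g w hw
    obtain ⟨c, rfl⟩ := Submodule.mem_span_singleton.1 hw
    change ρ (g : Q) (c • v) ∈ W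
    rw [map_smul, hχ, hχ1, Units.val_one, one_smul]
    exact Submodule.mem_span_singleton.2 ⟨c, rfl⟩
  have hdimq : finrank K (V ⧸ W) = finrank K V - 1 := by
    have h1 := Submodule.finrank_quotient_add_finrank W
    rw [hW, finrank_span_singleton hv0] at h1
    rw [hW]
    omega
  obtain ⟨f, hf⟩ := Y_SINGLE_mat (quoS ρ₁ W hInv) (finrank K V - 1) hdimq
  have hni := hEmb Q₁ hfi K f
  rw [injective_iff_map_eq_one] at hni
  push Not at hni
  obtain ⟨g₀, hg₀, hg₀1⟩ := hni
  -- the kernel of the action on the quotient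
  have hker : ∀ g : Q₁, g ∈ (quoS ρ₁ W hInv).ker → ∀ w, ρ (g : Q) w - w ∈ W := by
    intro g hg w
    rw [MonoidHom.mem_ker] at hg
    have h1 := congrArg (fun φ : Module.End K (V ⧸ W) => φ (W.mkQ w)) hg
    have h2 : (quoS ρ₁ W hInv) g (W.mkQ w) = W.mkQ (ρ (g : Q) w) := rfl
    simp only [h2, Module.End.one_apply] at h1
    rw [← sub_eq_zero, ← map_sub, Submodule.mkQ_apply, Submodule.Quotient.mk_eq_zero] at h1
    exact h1
  have hnilQ₁ : Group.IsNilpotent Q₁ := inferInstance
  obtain ⟨t, htN, ht1, htc⟩ := Y_SINGLE_center (quoS ρ₁ W hInv).ker inferInstance g₀ (hf g₀ hg₀) hg₀1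
  have ht1' : (t : Q) ≠ 1 := fun h => ht1 (Subtype.ext h)
  have htpow : ∀ m : ℕ, 0 < m → (t : Q) ^ m ≠ 1 := hTF (t : Q) ht1'
  have hrange : finrank K (LinearMap.range (ρ (t : Q) - 1)) = 1 := by
    have h1 : LinearMap.range (ρ (t : Q) - 1) ≤ W := by
      rintro _ ⟨w, rfl⟩
      exact hker t htN w
    have h2 := Submodule.finrank_mono h1
    rw [hW, finrank_span_singleton hv0] at h2
    have h3 : finrank K (LinearMap.range (ρ (t : Q) - 1)) ≠ 0 := by
      intro h
      rw [Submodule.finrank_eq_zero, LinearMap.range_eq_bot, sub_eq_zero] at h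
      exact ht1' (hρ (h.trans (map_one ρ).symm))
    omega
  have hex : ∃ u : Q₁, ∀ k : ℕ, 0 < k → ∀ m : ℤ, (u : Q) ^ k ≠ (t : Q) ^ m := by
    by_contra hcon
    push Not at hcon
    have hFG1 : Group.FG Q₁ := inferInstance
    have hzn : (Subgroup.zpowers t).Normal := by
      refine ⟨fun a ha g => ?_⟩
      obtain ⟨m, rfl⟩ := Subgroup.mem_zpowers_iff.1 ha
      have h1 : Commute g (t ^ m) := (show Commute g t from (htc g).symm).zpow_right m
      rw [h1.eq, mul_inv_cancel_right]
      exact ha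
    have h1 : (Subgroup.zpowers t).FiniteIndex := by
      refine hPOWF Q₁ hFG1 hnilQ₁ _ hzn fun u => ?_
      obtain ⟨k, hk, m, hm⟩ := hcon u
      refine ⟨k, hk, Subgroup.mem_zpowers_iff.2 ⟨m, ?_⟩⟩
      apply Subtype.ext
      push_cast
      exact hm.symm
    have h2 : (zpowersHom Q (t : Q)).range = (Subgroup.zpowers t).map Q₁.subtype := by
      ext x
      rw [MonoidHom.mem_range, Subgroup.mem_map]
      constructor
      · rintro ⟨m, rfl⟩
        exact ⟨t ^ (Multiplicative.toAdd m), Subgroup.mem_zpowers_iff.2 ⟨_, rfl⟩, by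
          rw [zpowersHom_apply]; rfl⟩
      · rintro ⟨y, hy, rfl⟩
        obtain ⟨m, rfl⟩ := Subgroup.mem_zpowers_iff.1 hy
        exact ⟨Multiplicative.ofAdd m, by rw [zpowersHom_apply]; rfl⟩
    have h3 : ((zpowersHom Q (t : Q)).range).FiniteIndex := by
      rw [h2]
      refine ⟨?_⟩
      rw [Subgroup.index_map]
      have h4 : (Subgroup.zpowers t ⊔ Q₁.subtype.ker).index ≠ 0 := by
        rw [Subgroup.ker_subtype, sup_bot_eq]
        exact h1.index_ne_zero
      have h5 : Q₁.subtype.range.index ≠ 0 := by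
        rw [Subgroup.range_subtype]
        exact hfi.index_ne_zero
      exact mul_ne_zero h4 h5
    obtain ⟨f', hf'⟩ := Y_SINGLE_cyc (K := K) (finrank K V - 1) (by omega) (t : Q) htpow
    exact hEmb _ h3 K f' hf'
  obtain ⟨u, hu⟩ := hex
  refine ⟨(t : Q), (u : Q), congrArg (fun z : Q₁ => (z : Q)) (htc u), hrange, hu, ?_⟩
  apply Y_SINGLE_nil
  have h1 := hnil (u : Q)
  rwa [hχ1, Units.val_one, one_smul] at h1

end Pool.Agent.PR
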